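import Pool.Agent.N35.HL.Fin

/-!
# The final estimate, with fewer levels

For some constant `c > 0`, for every constant `C` and all large `m` there is an arrangement certificate
`KLev.Has N E P` with `N ≤ m` lines whose number `E` of changes is at least
`C * x ^ (1 + c * (log log log x / log log x) ^ 4)` for all `x ∈ [m, 8 m]`.

The recursion of `Pool/Agent/N35/HL` is used as it is; the number `s` of its levels satisfies
`s * log log l ≤ 4 * log l` for `l = log₂ m`, since the multiplicity of the levels grows like a factorial.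
-/

set_option autoImplicit false
set_option linter.unusedVariables false

namespace Pool.Agent.L0h62.HL

open Finset Filter Topology Pool.Agent.N35.HL

/-- few levels are needed -/
lemma few_levels' {A : ℕ} (hA : 1 ≤ A) {l : ℕ} (hl : 3 ≤ l) {s : ℕ} (hs : Mu A s ≤ l) :
    ((s:ℝ) + 2) * Real.log (Real.log l) ≤ 4 * Real.log l := by
  have hl3 : (3:ℝ) ≤ l := by exact_mod_cast hl
  have hl0 : (0:ℝ) < l := by linarith
  have hL1 : 1 < Real.log l := by
    rw [Real.lt_log_iff_exp_lt hl0]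
    have := Real.exp_one_lt_d9
    linarith
  set L := Real.log l with hL
  have hL0 : 0 < L := by linarith
  have h1 : L ^ s / s.factorial ≤ Real.exp L := Real.pow_div_factorial_le_exp L hL0.le s
  have hf : (0:ℝ) < s.factorial := by exact_mod_cast s.factorial_pos
  have hfl : (s.factorial : ℝ) ≤ l := by exact_mod_cast (factorial_le_Mu hA s).trans hs
  rw [div_le_iff₀ hf, hL, Real.exp_log hl0] at h1
  have h2 : L ^ s ≤ (l:ℝ) * l := h1.trans (mul_le_mul_of_nonneg_left hfl hl0.le)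
  have h3 : (s:ℝ) * Real.log L ≤ 2 * L := by
    have h4 := Real.log_le_log (pow_pos hL0 s) h2
    rw [Real.log_pow, Real.log_mul hl0.ne' hl0.ne'] at h4
    linarith
  have h5 : Real.log L ≤ L := by
    have := Real.log_le_sub_one_of_pos hL0
    linarith
  linarith

/-- comparison of the scales of `x` and of `l = log₂ m` -/
lemma log_bounds' {m l : ℕ} {x : ℝ} (h1 : 2 ^ l ≤ m) (h2 : m < 2 ^ (l + 1)) (hl : 10 ≤ l)
    (hx1 : (m:ℝ) ≤ x) (hx2 : x ≤ 8 * m) :
    Real.log x * (Real.log (Real.log (Real.log x)) / Real.log (Real.log x)) ^ 4 ≤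
      16 * (l * (Real.log (Real.log l) / Real.log l) ^ 4) := by
  have hl0 : (10:ℝ) ≤ l := by exact_mod_cast hl
  have e1 : (2:ℝ) ^ l ≤ m := by exact_mod_cast h1
  have e2 : (m:ℝ) ≤ 2 ^ (l + 1) := by exact_mod_cast h2.le
  have hp : (0:ℝ) < 2 ^ l := by positivity
  have hx : 0 < x := by linarith
  have l2a := Real.log_two_gt_d9
  have l2b := Real.log_two_lt_d9
  have h3 : Real.log x ≤ l := by
    have h4 : x ≤ 2 ^ (l + 4) := by
      have : (2:ℝ) ^ (l + 4) = 8 * 2 ^ (l + 1) := by ring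
      linarith
    have h5 := Real.log_le_log hx h4
    rw [Real.log_pow] at h5
    push_cast at h5
    nlinarith
  have h4 : 0.69 * (l:ℝ) ≤ Real.log x := by
    have h5 := Real.log_le_log hp (e1.trans hx1)
    rw [Real.log_pow] at h5
    nlinarith
  have hx0 : 0 < Real.log x := by linarith
  have h5 : √(l:ℝ) ≤ Real.log x := by
    refine le_trans ?_ h4
    rw [Real.sqrt_le_left (by positivity)]
    nlinarith
  have h6 : Real.log l / 2 ≤ Real.log (Real.log x) := by
    rw [← Real.log_sqrt (by positivity)]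
    exact Real.log_le_log (Real.sqrt_pos.mpr (by linarith)) h5
  have h7 : 2 < Real.log l := by
    rw [Real.lt_log_iff_exp_lt (by linarith)]
    have h8 : Real.exp 2 = Real.exp 1 * Real.exp 1 := by rw [← Real.exp_add]; norm_num
    have h9 := Real.exp_one_lt_d9
    have h10 := Real.exp_pos 1
    rw [h8]
    nlinarith
  have h8 : 1 < Real.log (Real.log x) := by linarith
  have h9 : Real.log (Real.log x) ≤ Real.log l := Real.log_le_log hx0 h3
  have h10 : 0 ≤ Real.log (Real.log (Real.log x)) := Real.log_nonneg h8.le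
  have h11 : Real.log (Real.log (Real.log x)) ≤ Real.log (Real.log l) :=
    Real.log_le_log (by linarith) h9
  have h12 : Real.log (Real.log (Real.log x)) / Real.log (Real.log x) ≤
      Real.log (Real.log l) / (Real.log l / 2) :=
    div_le_div₀ (h10.trans h11) h11 (by linarith) h6
  calc Real.log x * (Real.log (Real.log (Real.log x)) / Real.log (Real.log x)) ^ 4
      ≤ l * (Real.log (Real.log l) / (Real.log l / 2)) ^ 4 := by
        apply mul_le_mul h3 _ (by positivity) (by linarith)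
        exact pow_le_pow_left₀ (div_nonneg h10 (by linarith)) h12 4
    _ = 16 * (l * (Real.log (Real.log l) / Real.log l) ^ 4) := by
        have : Real.log l ≠ 0 := by linarith
        field_simp
        ring

/-- the final estimate in exponential form -/
theorem finalE' : ∃ c : ℝ, 0 < c ∧ ∀ C : ℝ, ∀ᶠ m : ℕ in atTop, ∃ N E P, KLev.Has N E P ∧ N ≤ m ∧
    ∀ x : ℝ, (m:ℝ) ≤ x → x ≤ 8 * m →
      C * m * Real.exp (c * (Real.log x *
        (Real.log (Real.log (Real.log x)) / Real.log (Real.log x)) ^ 4)) ≤ E := by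
  obtain ⟨A, ρ, τ, Bh, hA, hBh, hlev⟩ := levels
  set ω := 20 + τ + ρ with hω
  set C₁ : ℕ := ω + Bh * (A * (ω + Bh)) with hC₁
  have hC1 : 1 ≤ C₁ := by omega
  have hC1' : (1:ℝ) ≤ C₁ := by exact_mod_cast hC1
  set c₀ : ℝ := 1 / (3072 * C₁) with hc₀
  have hc₀0 : 0 < c₀ := by positivity
  refine ⟨c₀ / 32, by positivity, fun C => ?_⟩
  have hlog : Tendsto (fun m : ℕ => Nat.log 2 m) atTop atTop := by
    rw [tendsto_atTop]
    intro b
    filter_upwards [eventually_ge_atTop (2 ^ b)] with m hm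
    exact Nat.le_log_of_pow_le (by norm_num) hm
  have hll : ∀ᶠ l : ℕ in atTop, 1 ≤ Real.log (Real.log l) := by
    have h1 : Tendsto (fun l : ℕ => Real.log (Real.log (l:ℝ))) atTop atTop :=
      Real.tendsto_log_atTop.comp (Real.tendsto_log_atTop.comp tendsto_natCast_atTop_atTop)
    exact h1.eventually (eventually_ge_atTop 1)
  have hev := hlog.eventually (hll.and
    ((big (2 / c₀ * Real.log (10506 / 2500 * (|C| + 1)))).and (eventually_ge_atTop (ω + Bh + 10))))
  filter_upwards [hev, eventually_ge_atTop 1] with m hm hm1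
  obtain ⟨hLL, hbig, hl⟩ := hm
  set l := Nat.log 2 m with hldef
  have hlm : 2 ^ l ≤ m := Nat.pow_log_le_self 2 (by omega)
  have hlm2 : m < 2 ^ (l + 1) := Nat.lt_pow_succ_log_self (by norm_num) m
  obtain ⟨s, q, hs1, hs2⟩ := select hA hBh (by omega : 1 ≤ ω) l (by omega)
  have hμ := Mu_pos (A := A) (by omega) s
  have hle : Mu A s ≤ l := by
    refine le_trans ?_ hs1
    apply Nat.le_mul_of_pos_right
    have : 0 < Bh * (q + 1) ^ 2 := Nat.mul_pos hBh (by positivity)
    omega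
  have h1 := few_levels' (A := A) (by omega) (by omega : 3 ≤ l) hle
  have hl0 : (10:ℝ) ≤ l := by exact_mod_cast (by omega : 10 ≤ l)
  have hL : 0 < Real.log l := Real.log_pos (by linarith)
  obtain ⟨N, E, P, h2, h3, h4⟩ := (hlev s).fill (Real.exp_nonneg _) q m (by
    refine le_trans (Nat.pow_le_pow_right (by norm_num) (le_trans ?_ hs1)) hlm
    have e1 : (Bh * Mu A s - 1) * (q + 1) ^ 2 ≤ Mu A s * (Bh * (q + 1) ^ 2) := by
      calc (Bh * Mu A s - 1) * (q + 1) ^ 2 ≤ (Bh * Mu A s) * (q + 1) ^ 2 :=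
            Nat.mul_le_mul_right _ (Nat.sub_le _ _)
        _ = Mu A s * (Bh * (q + 1) ^ 2) := by ring
    have e2 : (q + 1) * (20 + τ * (s + 1) ^ 4 * Mu A s + ρ * (s + 1) ^ 3 * Mu A s) ≤
        Mu A s * (ω * (s + 1) ^ 4 * (q + 1)) := by
      have e3 : 1 ≤ (s + 1) ^ 4 := Nat.one_le_pow _ _ (by omega)
      have e4 : 1 * 1 ≤ (s + 1) ^ 4 * Mu A s := Nat.mul_le_mul e3 hμ
      have e5 : ρ * (s + 1) ^ 3 * Mu A s ≤ ρ * (s + 1) ^ 4 * Mu A s := by
        apply Nat.mul_le_mul_right
        apply Nat.mul_le_mul_left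
        exact Nat.pow_le_pow_right (by omega) (by norm_num)
      calc (q + 1) * (20 + τ * (s + 1) ^ 4 * Mu A s + ρ * (s + 1) ^ 3 * Mu A s)
          ≤ (q + 1) * (20 * ((s + 1) ^ 4 * Mu A s) + τ * (s + 1) ^ 4 * Mu A s +
              ρ * (s + 1) ^ 4 * Mu A s) := by
            apply Nat.mul_le_mul_left
            omega
        _ = Mu A s * (ω * (s + 1) ^ 4 * (q + 1)) := by rw [hω]; ring
    calc (q + 1) * (20 + τ * (s + 1) ^ 4 * Mu A s + ρ * (s + 1) ^ 3 * Mu A s) +
          (Bh * Mu A s - 1) * (q + 1) ^ 2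
        ≤ Mu A s * (ω * (s + 1) ^ 4 * (q + 1)) + Mu A s * (Bh * (q + 1) ^ 2) :=
          Nat.add_le_add e2 e1
      _ = Mu A s * (ω * (s + 1) ^ 4 * (q + 1) + Bh * (q + 1) ^ 2) := by ring)
  refine ⟨N, E, P, h2, h3, ?_⟩
  intro x hx1 hx2
  have hx3 := log_bounds' hlm hlm2 (by omega) hx1 hx2
  set y : ℝ := l * (Real.log (Real.log l) / Real.log l) ^ 4 with hy
  have hy0 : 0 ≤ y := by positivity
  have hm0 : (0:ℝ) ≤ m := Nat.cast_nonneg _
  have hμ0 : (1:ℝ) ≤ Mu A s := by exact_mod_cast hμ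
  -- the gain
  have h5 : c₀ * y ≤ 1 / 3 * Mu A s * (q + 1) := by
    have e1 : (l:ℝ) ≤ 4 * C₁ * (s + 2) ^ 4 * (Mu A s * (q + 1)) := by exact_mod_cast hs2
    have e2 : (((s:ℝ) + 2) * Real.log (Real.log l)) ^ 4 ≤ (4 * Real.log l) ^ 4 :=
      pow_le_pow_left₀ (by positivity) h1 4
    have e3 : ((s:ℝ) + 2) ^ 4 * (Real.log (Real.log l)) ^ 4 ≤ 256 * (Real.log l) ^ 4 := by
      calc ((s:ℝ) + 2) ^ 4 * (Real.log (Real.log l)) ^ 4 = (((s:ℝ) + 2) * Real.log (Real.log l)) ^ 4 := by
            ring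
        _ ≤ (4 * Real.log l) ^ 4 := e2
        _ = 256 * (Real.log l) ^ 4 := by ring
    have e6 : (0:ℝ) ≤ Mu A s * (q + 1) := by positivity
    have e7 : (l:ℝ) * (Real.log (Real.log l)) ^ 4 ≤
        1024 * C₁ * (Real.log l) ^ 4 * (Mu A s * (q + 1)) := by
      calc (l:ℝ) * (Real.log (Real.log l)) ^ 4
          ≤ (4 * C₁ * (s + 2) ^ 4 * (Mu A s * (q + 1))) * (Real.log (Real.log l)) ^ 4 :=
            mul_le_mul_of_nonneg_right e1 (by positivity)
        _ = 4 * C₁ * (Mu A s * (q + 1)) * (((s:ℝ) + 2) ^ 4 * (Real.log (Real.log l)) ^ 4) := by ring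
        _ ≤ 4 * C₁ * (Mu A s * (q + 1)) * (256 * (Real.log l) ^ 4) :=
            mul_le_mul_of_nonneg_left e3 (by positivity)
        _ = 1024 * C₁ * (Real.log l) ^ 4 * (Mu A s * (q + 1)) := by ring
    have e8 : y = (l:ℝ) * (Real.log (Real.log l)) ^ 4 / (Real.log l) ^ 4 := by
      rw [hy, div_pow]; ring
    rw [hc₀, e8, div_mul_eq_mul_div, one_mul, div_div, div_le_iff₀ (by positivity)]
    linarith
  -- the ratio
  have h6 : Real.exp (c₀ * y) ≤ Real.exp (1 / 3 * (1 + 1 / ((s:ℝ) + 1)) * Mu A s) ^ (q + 1) := by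
    rw [← Real.exp_nat_mul]
    apply Real.exp_le_exp.mpr
    refine h5.trans ?_
    push_cast
    have e1 : 0 ≤ 1 / ((s:ℝ) + 1) := by positivity
    have e2 : 0 ≤ 1 / ((s:ℝ) + 1) * ((Mu A s : ℝ) * (q + 1)) := by positivity
    linarith
  have hby : 2 / c₀ * Real.log (10506 / 2500 * (|C| + 1)) ≤ y := by
    refine hbig.trans ?_
    rw [hy, div_pow, ← mul_div_assoc]
    apply div_le_div_of_nonneg_right _ (by positivity)
    have e1 : (1:ℝ) ≤ (Real.log (Real.log l)) ^ 4 := one_le_pow₀ hLL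
    calc (l:ℝ) = l * 1 := (mul_one _).symm
      _ ≤ l * (Real.log (Real.log l)) ^ 4 := mul_le_mul_of_nonneg_left e1 (by linarith)
  have h7 : |C| + 1 ≤ 2500 / 10506 * Real.exp (c₀ / 2 * y) := by
    have e1 : (0:ℝ) < 10506 / 2500 * (|C| + 1) := by positivity
    have e3 : Real.log (10506 / 2500 * (|C| + 1)) ≤ c₀ / 2 * y := by
      have e4 := mul_le_mul_of_nonneg_left hby (by positivity : 0 ≤ c₀ / 2)
      have e5 : c₀ / 2 * (2 / c₀ * Real.log (10506 / 2500 * (|C| + 1))) =
          Real.log (10506 / 2500 * (|C| + 1)) := by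
        field_simp
      linarith
    have e2 := Real.exp_le_exp.mpr e3
    rw [Real.exp_log e1] at e2
    linarith
  have h8 : c₀ / 32 * (Real.log x *
        (Real.log (Real.log (Real.log x)) / Real.log (Real.log x)) ^ 4) ≤ c₀ / 2 * y := by
    have := mul_le_mul_of_nonneg_left hx3 (by positivity : 0 ≤ c₀ / 32)
    linarith
  calc C * m * Real.exp (c₀ / 32 * (Real.log x *
        (Real.log (Real.log (Real.log x)) / Real.log (Real.log x)) ^ 4))
      ≤ (|C| + 1) * m * Real.exp (c₀ / 2 * y) := by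
        apply mul_le_mul _ (Real.exp_le_exp.mpr h8) (Real.exp_nonneg _) (by positivity)
        exact mul_le_mul_of_nonneg_right (by linarith [le_abs_self C]) hm0
    _ ≤ (2500 / 10506 * Real.exp (c₀ / 2 * y)) * m * Real.exp (c₀ / 2 * y) := by
        apply mul_le_mul_of_nonneg_right _ (Real.exp_nonneg _)
        exact mul_le_mul_of_nonneg_right h7 hm0
    _ = 2500 / 10506 * (Real.exp (c₀ / 2 * y) * Real.exp (c₀ / 2 * y)) * m := by ring
    _ = 2500 / 10506 * Real.exp (c₀ * y) * m := by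
        rw [← Real.exp_add]
        congr 3
        ring
    _ ≤ 2500 / 10506 * Real.exp (1 / 3 * (1 + 1 / ((s:ℝ) + 1)) * Mu A s) ^ (q + 1) * m := by
        apply mul_le_mul_of_nonneg_right _ hm0
        exact mul_le_mul_of_nonneg_left h6 (by norm_num)
    _ ≤ E := h4

/-- the final estimate in the form `x ^ (1 + c * (log log log x / log log x) ^ 4)` -/
theorem finalP' : ∃ c : ℝ, 0 < c ∧ ∀ C : ℝ, ∀ᶠ m : ℕ in atTop, ∃ N E P, KLev.Has N E P ∧ N ≤ m ∧
    ∀ x : ℝ, (m:ℝ) ≤ x → x ≤ 8 * m →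
      C * x ^ (1 + c * (Real.log (Real.log (Real.log x)) / Real.log (Real.log x)) ^ 4) ≤ E := by
  obtain ⟨c, hc, hE⟩ := finalE'
  refine ⟨c, hc, fun C => ?_⟩
  filter_upwards [hE (8 * max C 0), eventually_ge_atTop 1] with m hm hm1
  obtain ⟨N, E, P, h1, h2, h3⟩ := hm
  refine ⟨N, E, P, h1, h2, ?_⟩
  intro x hx1 hx2
  have hm0 : (0:ℝ) < m := by exact_mod_cast hm1
  have hx : 0 < x := by linarith
  have h4 := h3 x hx1 hx2
  set z := (Real.log (Real.log (Real.log x)) / Real.log (Real.log x)) ^ 4 with hz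
  have e : x ^ (1 + c * z) = x * Real.exp (c * (Real.log x * z)) := by
    rw [Real.rpow_add hx, Real.rpow_one, Real.rpow_def_of_pos hx]
    congr 2
    ring
  rw [e]
  have h5 : 0 ≤ max C 0 := le_max_right _ _
  calc C * (x * Real.exp (c * (Real.log x * z)))
      ≤ max C 0 * (x * Real.exp (c * (Real.log x * z))) :=
        mul_le_mul_of_nonneg_right (le_max_left _ _) (by positivity)
    _ ≤ max C 0 * ((8 * m) * Real.exp (c * (Real.log x * z))) := by
        apply mul_le_mul_of_nonneg_left _ h5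
        exact mul_le_mul_of_nonneg_right hx2 (Real.exp_nonneg _)
    _ = 8 * max C 0 * m * Real.exp (c * (Real.log x * z)) := by ring
    _ ≤ E := h4

end Pool.Agent.L0h62.HL
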