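import Pool.Agent.L0h62.HL.Fin
import Pool.Agent.H501R3.KSetMain

/-!
# `k`-sets: the lower bound
-/

set_option maxHeartbeats 1000000

namespace Pool.Agent.L0h62.HL

open Finset Filter Topology KLev H501.KSet

/-- the main lower bound -/
theorem ksets : ∃ c : ℝ, 0 < c ∧ ∀ d : ℕ, 2 ≤ d → ∀ C : ℝ, ∃ k₀ : ℕ, ∀ k n : ℕ, k₀ ≤ k → 2 * k ≤ n →
    C * n * (k : ℝ) ^ ((d : ℝ) - 2 + c * (Real.log (Real.log (Real.log k)) / Real.log (Real.log k)) ^ 4) ≤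
      (a d n k : ℝ) := by
  obtain ⟨c, hc, hf⟩ := finalP'
  refine ⟨c, hc, fun d hd C => ?_⟩
  obtain ⟨e, rfl⟩ : ∃ e, d = e + 2 := ⟨d - 2, by omega⟩
  set C₀ : ℝ := max C 0 with hC₀
  have hC₀0 : 0 ≤ C₀ := le_max_right _ _
  obtain ⟨k₁, hk₁⟩ :=
    (hf (C₀ * 4 * (4 * (e + 1)) ^ e)).exists_forall_of_atTop
  refine ⟨2 * k₁ + 2 * (e + 1) + 10, fun k n hk hn => ?_⟩
  obtain ⟨N, E, P, hH, hN, hE⟩ := hk₁ (k / 2) (by omega)
  have hEk := hE k (by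
    have : k / 2 ≤ k := Nat.div_le_self k 2
    exact_mod_cast this) (by
    have : k ≤ 8 * (k / 2) := by omega
    exact_mod_cast this)
  set η := c * (Real.log (Real.log (Real.log k)) / Real.log (Real.log k)) ^ 4 with hη
  set m := k / (2 * (e + 1)) with hm
  set t := n / (2 * k) with ht
  have hme : m * e ≤ k / 2 := by
    rw [Nat.le_div_iff_mul_le (by norm_num)]
    calc m * e * 2 ≤ m * (2 * (e + 1)) := by nlinarith [Nat.zero_le m]
      _ ≤ k := Nat.div_mul_le_self k _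
  have h1 := le_a_of_has hH e m k n t (by omega) (Nat.div_mul_le_self n _)
  have h2 : ((t * (E * m ^ e) : ℕ) : ℝ) ≤ a (e + 2) n k := by exact_mod_cast h1
  refine le_trans ?_ h2
  have hk0 : (0 : ℝ) < k := by
    have : 0 < k := by omega
    exact_mod_cast this
  have hn0 : (0 : ℝ) ≤ n := Nat.cast_nonneg _
  -- the number of copies
  have ht1 : (n : ℝ) ≤ 4 * k * t := by
    have h3 : n < 2 * k * (t + 1) := Nat.lt_mul_div_succ n (by omega)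
    have h4 : 1 ≤ t := (Nat.le_div_iff_mul_le (by omega)).mpr (by omega)
    have h5 : n ≤ 4 * k * t := by nlinarith
    exact_mod_cast h5
  have hm1 : (k : ℝ) ≤ 4 * (e + 1) * m := by
    have h3 : k < 2 * (e + 1) * (m + 1) := Nat.lt_mul_div_succ k (by omega)
    have h4 : 1 ≤ m := (Nat.le_div_iff_mul_le (by omega)).mpr (by omega)
    have h5 : k ≤ 4 * (e + 1) * m := by nlinarith
    exact_mod_cast h5
  have hCC : C ≤ C₀ := le_max_left _ _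
  have hp : (0 : ℝ) ≤ (k : ℝ) ^ η := by positivity
  have e1 : (k : ℝ) ^ (((e + 2 : ℕ) : ℝ) - 2 + η) = (k : ℝ) ^ e * (k : ℝ) ^ η := by
    rw [show ((e + 2 : ℕ) : ℝ) - 2 + η = (e : ℝ) + η by push_cast; ring, Real.rpow_add hk0,
      Real.rpow_natCast]
  have e2 : (k : ℝ) ^ (1 + η) = k * (k : ℝ) ^ η := by
    rw [Real.rpow_add hk0, Real.rpow_one]
  rw [e1]
  rw [e2] at hEk
  push_cast
  have h6 : (k : ℝ) ^ e ≤ (4 * (e + 1)) ^ e * (m : ℝ) ^ e := by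
    rw [← mul_pow]
    exact pow_le_pow_left₀ hk0.le hm1 e
  calc C * n * ((k : ℝ) ^ e * (k : ℝ) ^ η)
      ≤ C₀ * n * ((k : ℝ) ^ e * (k : ℝ) ^ η) := by gcongr
    _ ≤ C₀ * (4 * k * t) * (((4 * (e + 1)) ^ e * (m : ℝ) ^ e) * (k : ℝ) ^ η) := by gcongr
    _ = t * ((C₀ * 4 * (4 * (e + 1)) ^ e * (k * (k : ℝ) ^ η)) * (m : ℝ) ^ e) := by ring
    _ ≤ t * (E * (m : ℝ) ^ e) := by gcongr

end Pool.Agent.L0h62.HL
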